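import Pool.Agent.Y451.FM.Stm

/-!
# FM-COU: the sequential coupling lemma
-/

set_option autoImplicit false

open Pool.Agent.Y451.FM Finset

namespace Pool.Agent.Y240.FM

theorem sum_cons {m : ℕ} {S : Type} [Fintype S] (f : (Fin (m + 1) → S) → ℝ) :
    ∑ c, f c = ∑ s, ∑ c1 : Fin m → S, f (Fin.cons s c1 : Fin (m + 1) → S) := by
  rw [← (Fin.consEquiv (fun _ => S)).sum_comp, Fintype.sum_prod_type]
  rfl

theorem sum_prod_one {m : ℕ} {S : Type} [Fintype S] (q : Fin m → S → ℝ)
    (hq1 : ∀ i, ∑ s, q i s = 1) : ∑ c : Fin m → S, ∏ i, q i (c i) = 1 := by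
  classical
  have h := Finset.prod_univ_sum (fun _ : Fin m => (univ : Finset S)) q
  rw [Fintype.piFinset_univ] at h
  rw [← h]
  simp [hq1]

/-- the coupling property -/
def CouP (m : ℕ) (S K : Type) [Fintype S] [Fintype K] [DecidableEq S] (q : Fin m → S → ℝ)
    (p : (Fin m → S) → K → ℝ) (g : Fin m → ℝ) : Prop :=
  ∀ (L U : Type) [Fintype L] [Fintype U] [DecidableEq L] (h : K → L)
    (P : (Fin m → S) → K → U → ℝ), (∀ c z u, 0 ≤ P c z u) → (∀ c z, ∑ u, P c z u = p c z) →
    ∃ κ : L → (Fin m → S) → (Fin m → S) → U → ℝ, (∀ l c c' u, 0 ≤ κ l c c' u) ∧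
      (∀ l c u, ∑ c', κ l c c' u = ∑ z, if h z = l then P c z u else 0) ∧
      (∀ l c', ∑ c, ∑ u, κ l c c' u =
        (∑ c, ∑ z, if h z = l then p c z else 0) * ∏ i, q i (c' i)) ∧
      ∀ i, ∑ l, ∑ c, ∑ c', ∑ u, (if c i = c' i then 0 else κ l c c' u) ≤ g i

theorem stepCou (hM : S_MAX) (m : ℕ) (S K : Type) [Fintype S] [Fintype K] [DecidableEq S]
    (q : Fin (m + 1) → S → ℝ) (p : (Fin (m + 1) → S) → K → ℝ) (hq0 : ∀ i s, 0 ≤ q i s)
    (hq1 : ∀ i, ∑ s, q i s = 1) (hp0 : ∀ c z, 0 ≤ p c z) (hp1 : ∀ c, ∑ z, p c z = ∏ i, q i (c i))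
    (gs : S → Fin m → ℝ) (hgs0 : ∀ s i, 0 ≤ gs s i)
    (hgs : ∀ s, q 0 s ≠ 0 → CouP m S K (fun i => q i.succ)
      (fun c1 z => p (Fin.cons s c1 : Fin (m + 1) → S) z / q 0 s) (gs s)) :
    CouP (m + 1) S K q p (Fin.cons ((1 / 2) * ∑ s, ∑ z,
      |(∑ c1 : Fin m → S, p (Fin.cons s c1 : Fin (m + 1) → S) z) -
        q 0 s * ∑ s', ∑ c1 : Fin m → S, p (Fin.cons s' c1 : Fin (m + 1) → S) z|)
      (fun i => ∑ s, q 0 s * gs s i) : Fin (m + 1) → ℝ) := by
  intro L U _ _ _ h P hP0 hP1
  set p0 : S → K → ℝ := fun s z => ∑ c1 : Fin m → S, p (Fin.cons s c1 : Fin (m + 1) → S) z with hp0d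
  have hp00 : ∀ s z, 0 ≤ p0 s z := fun s z => Finset.sum_nonneg fun c1 _ => hp0 _ _
  have hp0q : ∀ s, ∑ z, p0 s z = q 0 s := by
    intro s
    simp only [hp0d]
    rw [Finset.sum_comm]
    have h1 : ∀ c1 : Fin m → S, ∑ z, p (Fin.cons s c1 : Fin (m + 1) → S) z =
        q 0 s * ∏ i : Fin m, q i.succ (c1 i) := by
      intro c1
      rw [hp1, Fin.prod_univ_succ]
      simp
    simp only [h1]
    rw [← Finset.mul_sum, sum_prod_one _ (fun i => hq1 _), mul_one]
  set PL : L → S → ℝ := fun l s => ∑ z, if h z = l then p0 s z else 0 with hPLd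
  have hPL0 : ∀ l s, 0 ≤ PL l s := fun l s => Finset.sum_nonneg fun z _ => by
    split_ifs
    · exact hp00 s z
    · exact le_rfl
  obtain ⟨κ0, hκ0, hκ1, hκ2, hκ3⟩ := hM S L (q 0) PL (hq0 0) (hq1 0) hPL0
  have hPLz : ∀ l s z, PL l s = 0 → h z = l → p0 s z = 0 := by
    intro l s z h1 h2
    have h3 := (Finset.sum_eq_zero_iff_of_nonneg (fun z _ => by
      split_ifs
      · exact hp00 s z
      · exact le_rfl)).mp h1 z (Finset.mem_univ z)
    rwa [if_pos h2] at h3
  have hPLq : ∀ l s, q 0 s = 0 → PL l s = 0 := by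
    intro l s h1
    have h2 : ∀ z, p0 s z = 0 := by
      have := hp0q s
      rw [h1] at this
      intro z
      exact (Finset.sum_eq_zero_iff_of_nonneg (fun z _ => hp00 s z)).mp this z (Finset.mem_univ z)
    simp only [hPLd, h2]
    simp
  have hκz : ∀ l s s', PL l s = 0 → κ0 l s s' = 0 := by
    intro l s s' h1
    have h2 := hκ1 l s
    rw [h1] at h2
    exact (Finset.sum_eq_zero_iff_of_nonneg (fun s' _ => hκ0 l s s')).mp h2 s' (Finset.mem_univ s')
  have hpz : ∀ s z (c1 : Fin m → S), p0 s z = 0 → p (Fin.cons s c1 : Fin (m + 1) → S) z = 0 := by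
    intro s z c1 h1
    exact (Finset.sum_eq_zero_iff_of_nonneg (fun c1 _ => hp0 _ _)).mp h1 c1 (Finset.mem_univ c1)
  have hPz : ∀ c z u, p c z = 0 → P c z u = 0 := by
    intro c z u h1
    have h2 := hP1 c z
    rw [h1] at h2
    exact (Finset.sum_eq_zero_iff_of_nonneg (fun u _ => hP0 c z u)).mp h2 u (Finset.mem_univ u)
  -- the mass of `l` given `s`
  have hmass : ∀ l s, (∑ c1 : Fin m → S, ∑ z, if h z = l then
      p (Fin.cons s c1 : Fin (m + 1) → S) z / q 0 s else 0) = PL l s / q 0 s := by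
    intro l s
    rw [Finset.sum_comm, hPLd, Finset.sum_div]
    refine Finset.sum_congr rfl fun z _ => ?_
    by_cases hz : h z = l
    · simp only [hz, if_true, hp0d]
      rw [Finset.sum_div]
    · simp [hz]
  -- the conditional couplings
  have hcs : ∀ s, ∃ κs : L → (Fin m → S) → (Fin m → S) → U → ℝ, (∀ l c c' u, 0 ≤ κs l c c' u) ∧
      (q 0 s ≠ 0 → (∀ l c u, ∑ c', κs l c c' u =
          ∑ z, if h z = l then P (Fin.cons s c : Fin (m + 1) → S) z u / q 0 s else 0) ∧
        (∀ l c', ∑ c, ∑ u, κs l c c' u = (PL l s / q 0 s) * ∏ i : Fin m, q i.succ (c' i)) ∧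
        ∀ i, ∑ l, ∑ c, ∑ c', ∑ u, (if c i = c' i then 0 else κs l c c' u) ≤ gs s i) := by
    intro s
    by_cases hs : q 0 s = 0
    · exact ⟨fun _ _ _ _ => 0, fun _ _ _ _ => le_rfl, fun h => absurd hs h⟩
    · have hs0 : 0 < q 0 s := lt_of_le_of_ne (hq0 0 s) (Ne.symm hs)
      obtain ⟨κs, h1, h2, h3, h4⟩ := hgs s hs L U h
        (fun c z u => P (Fin.cons s c : Fin (m + 1) → S) z u / q 0 s)
        (fun c z u => div_nonneg (hP0 _ _ _) hs0.le)
        (fun c z => by rw [← Finset.sum_div, hP1])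
      exact ⟨κs, h1, fun _ => ⟨h2, fun l c' => by rw [h3 l c', hmass], h4⟩⟩
  choose κs hκs0 hκs using hcs
  -- total mass of the conditional coupling
  have htot : ∀ l s, q 0 s ≠ 0 → ∑ c, ∑ c', ∑ u, κs s l c c' u = PL l s / q 0 s := by
    intro l s hs
    have h1 : ∑ c, ∑ c', ∑ u, κs s l c c' u = ∑ c', ∑ c, ∑ u, κs s l c c' u := Finset.sum_comm
    rw [h1]
    simp only [(hκs s hs).2.1 l]
    rw [← Finset.mul_sum, sum_prod_one _ (fun i => hq1 _), mul_one]
  have hW0 : ∀ l s, 0 ≤ q 0 s / PL l s := fun l s => div_nonneg (hq0 0 s) (hPL0 l s)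
  refine ⟨fun l c c' u => κ0 l (c 0) (c' 0) *
    (q 0 (c 0) / PL l (c 0) * κs (c 0) l (Fin.tail c) (Fin.tail c') u), ?_, ?_, ?_, ?_⟩
  · intro l c c' u
    exact mul_nonneg (hκ0 _ _ _) (mul_nonneg (hW0 _ _) (hκs0 _ _ _ _ _))
  · intro l c u
    obtain ⟨s, c1, rfl⟩ : ∃ (s : S) (c1 : Fin m → S), c = Fin.cons s c1 :=
      ⟨c 0, Fin.tail c, (Fin.cons_self_tail c).symm⟩
    rw [sum_cons]
    simp only [Fin.cons_zero, Fin.tail_cons]
    have h1 : ∀ s', ∑ c1' : Fin m → S, κ0 l s s' * (q 0 s / PL l s * κs s l c1 c1' u) =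
        κ0 l s s' * (q 0 s / PL l s * ∑ c1' : Fin m → S, κs s l c1 c1' u) := by
      intro s'
      rw [Finset.mul_sum, Finset.mul_sum]
    simp only [h1]
    rw [← Finset.sum_mul, hκ1]
    by_cases hz : PL l s = 0
    · rw [hz, zero_mul]
      symm
      apply Finset.sum_eq_zero
      intro z _
      by_cases hzl : h z = l
      · rw [if_pos hzl]
        exact hPz _ _ _ (hpz _ _ _ (hPLz l s z hz hzl))
      · rw [if_neg hzl]
    · have hs : q 0 s ≠ 0 := fun h1 => hz (hPLq l s h1)
      rw [(hκs s hs).1 l c1 u, ← mul_assoc, mul_div_cancel₀ _ hz, Finset.mul_sum]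
      refine Finset.sum_congr rfl fun z _ => ?_
      by_cases hzl : h z = l
      · rw [if_pos hzl, if_pos hzl, mul_div_cancel₀ _ hs]
      · rw [if_neg hzl, if_neg hzl, mul_zero]
  · intro l c'
    rw [sum_cons]
    simp only [Fin.cons_zero, Fin.tail_cons]
    have h1 : ∀ s, ∑ c1 : Fin m → S, ∑ u, κ0 l s (c' 0) *
        (q 0 s / PL l s * κs s l c1 (Fin.tail c') u) =
        κ0 l s (c' 0) * ∏ i : Fin m, q i.succ (c' i.succ) := by
      intro s
      have h2 : ∑ c1 : Fin m → S, ∑ u, κ0 l s (c' 0) *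
        (q 0 s / PL l s * κs s l c1 (Fin.tail c') u) = κ0 l s (c' 0) *
        (q 0 s / PL l s * ∑ c1 : Fin m → S, ∑ u, κs s l c1 (Fin.tail c') u) := by
        simp only [Finset.mul_sum]
      rw [h2]
      by_cases hz : PL l s = 0
      · rw [hκz l s (c' 0) hz, zero_mul, zero_mul]
      · have hs : q 0 s ≠ 0 := fun h1 => hz (hPLq l s h1)
        rw [(hκs s hs).2.1 l (Fin.tail c'), ← mul_assoc (q 0 s / PL l s),
          div_mul_div_cancel₀ hz, div_self hs, one_mul]
        rfl
    simp only [h1]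
    rw [← Finset.sum_mul, hκ2, Fin.prod_univ_succ, ← mul_assoc]
    congr 2
    rw [sum_cons]
    refine Finset.sum_congr rfl fun s _ => ?_
    simp only [hPLd, hp0d]
    rw [Finset.sum_comm]
    refine Finset.sum_congr rfl fun z _ => ?_
    by_cases hzl : h z = l
    · simp [hzl]
    · simp [hzl]
  · intro i
    refine Fin.cases ?_ (fun i => ?_) i
    · -- the first coordinate
      simp only [Fin.cons_zero]
      have h1 : ∀ l, ∑ c : Fin (m + 1) → S, ∑ c' : Fin (m + 1) → S, ∑ u, (if c 0 = c' 0 then 0 else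
          κ0 l (c 0) (c' 0) * (q 0 (c 0) / PL l (c 0) *
            κs (c 0) l (Fin.tail c) (Fin.tail c') u)) ≤
          (1 / 2) * ∑ s, |PL l s - q 0 s * ∑ s', PL l s'| := by
        intro l
        rw [← hκ3 l, sum_cons]
        refine Finset.sum_le_sum fun s _ => ?_
        have h2 : ∑ c1 : Fin m → S, ∑ c' : Fin (m + 1) → S, ∑ u,
            (if (Fin.cons s c1 : Fin (m + 1) → S) 0 = c' 0 then 0 else
            κ0 l ((Fin.cons s c1 : Fin (m + 1) → S) 0) (c' 0) *
            (q 0 ((Fin.cons s c1 : Fin (m + 1) → S) 0) /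
              PL l ((Fin.cons s c1 : Fin (m + 1) → S) 0) *
            κs ((Fin.cons s c1 : Fin (m + 1) → S) 0) l
              (Fin.tail (Fin.cons s c1 : Fin (m + 1) → S)) (Fin.tail c') u)) =
            ∑ s', (if s = s' then 0 else κ0 l s s') *
              (q 0 s / PL l s * ∑ c1 : Fin m → S, ∑ c1' : Fin m → S, ∑ u, κs s l c1 c1' u) := by
          simp only [Fin.cons_zero, Fin.tail_cons]
          have h3 : ∀ c1 : Fin m → S, ∑ c' : Fin (m + 1) → S, ∑ u,
              (if s = c' 0 then 0 else κ0 l s (c' 0) *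
              (q 0 s / PL l s * κs s l c1 (Fin.tail c') u)) =
              ∑ s', (if s = s' then 0 else κ0 l s s') *
              (q 0 s / PL l s * ∑ c1' : Fin m → S, ∑ u, κs s l c1 c1' u) := by
            intro c1
            rw [sum_cons]
            refine Finset.sum_congr rfl fun s' _ => ?_
            simp only [Fin.cons_zero, Fin.tail_cons]
            by_cases hs' : s = s'
            · simp [hs']
            · simp only [if_neg hs', Finset.mul_sum]
          simp only [h3]
          rw [Finset.sum_comm]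
          refine Finset.sum_congr rfl fun s' _ => ?_
          simp only [Finset.mul_sum]
        rw [h2]
        refine Finset.sum_le_sum fun s' _ => ?_
        have h4 : 0 ≤ (if s = s' then 0 else κ0 l s s') := by
          split_ifs
          · exact le_rfl
          · exact hκ0 l s s'
        by_cases hz : PL l s = 0
        · rw [hz, div_zero, zero_mul, mul_zero]
          exact h4
        · have hs : q 0 s ≠ 0 := fun h1 => hz (hPLq l s h1)
          rw [htot l s hs, div_mul_div_cancel₀ hz, div_self hs, mul_one]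
      refine (Finset.sum_le_sum fun l _ => h1 l).trans ?_
      rw [← Finset.mul_sum]
      refine mul_le_mul_of_nonneg_left ?_ (by norm_num)
      rw [Finset.sum_comm]
      refine Finset.sum_le_sum fun s _ => ?_
      have h5 : ∀ l, |PL l s - q 0 s * ∑ s', PL l s'| ≤
          ∑ z, if h z = l then |p0 s z - q 0 s * ∑ s', p0 s' z| else 0 := by
        intro l
        have h6 : PL l s - q 0 s * ∑ s', PL l s' =
            ∑ z, if h z = l then (p0 s z - q 0 s * ∑ s', p0 s' z) else 0 := by
          simp only [hPLd]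
          rw [Finset.sum_comm (s := (univ : Finset S)), Finset.mul_sum, ← Finset.sum_sub_distrib]
          refine Finset.sum_congr rfl fun z _ => ?_
          by_cases hzl : h z = l
          · simp [hzl]
          · simp [hzl]
        rw [h6]
        refine (Finset.abs_sum_le_sum_abs _ _).trans_eq ?_
        refine Finset.sum_congr rfl fun z _ => ?_
        by_cases hzl : h z = l
        · simp [hzl]
        · simp [hzl]
      refine (Finset.sum_le_sum fun l _ => h5 l).trans_eq ?_
      rw [Finset.sum_comm]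
      refine Finset.sum_congr rfl fun z _ => ?_
      rw [Finset.sum_ite_eq, if_pos (Finset.mem_univ _)]
    · -- the other coordinates
      simp only [Fin.cons_succ]
      have h1 : ∀ l, ∑ c : Fin (m + 1) → S, ∑ c' : Fin (m + 1) → S, ∑ u,
          (if c i.succ = c' i.succ then 0 else
          κ0 l (c 0) (c' 0) * (q 0 (c 0) / PL l (c 0) *
            κs (c 0) l (Fin.tail c) (Fin.tail c') u)) ≤
          ∑ s, q 0 s * ∑ c1 : Fin m → S, ∑ c1' : Fin m → S, ∑ u,
            (if c1 i = c1' i then 0 else κs s l c1 c1' u) := by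
        intro l
        rw [sum_cons]
        refine Finset.sum_le_sum fun s _ => ?_
        have h2 : ∑ c1 : Fin m → S, ∑ c' : Fin (m + 1) → S, ∑ u,
            (if (Fin.cons s c1 : Fin (m + 1) → S) i.succ = c' i.succ then 0 else
            κ0 l ((Fin.cons s c1 : Fin (m + 1) → S) 0) (c' 0) *
            (q 0 ((Fin.cons s c1 : Fin (m + 1) → S) 0) /
              PL l ((Fin.cons s c1 : Fin (m + 1) → S) 0) *
            κs ((Fin.cons s c1 : Fin (m + 1) → S) 0) l
              (Fin.tail (Fin.cons s c1 : Fin (m + 1) → S)) (Fin.tail c') u)) =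
            PL l s * (q 0 s / PL l s * ∑ c1 : Fin m → S, ∑ c1' : Fin m → S, ∑ u,
              (if c1 i = c1' i then 0 else κs s l c1 c1' u)) := by
          simp only [Fin.cons_zero, Fin.tail_cons, Fin.cons_succ]
          rw [← hκ1 l s, Finset.sum_mul]
          have h3 : ∀ c1 : Fin m → S, ∑ c' : Fin (m + 1) → S, ∑ u,
              (if c1 i = c' i.succ then 0 else κ0 l s (c' 0) *
              (q 0 s / PL l s * κs s l c1 (Fin.tail c') u)) =
              ∑ s', κ0 l s s' *
              (q 0 s / PL l s * ∑ c1' : Fin m → S, ∑ u,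
                (if c1 i = c1' i then 0 else κs s l c1 c1' u)) := by
            intro c1
            rw [sum_cons]
            refine Finset.sum_congr rfl fun s' _ => ?_
            simp only [Fin.cons_zero, Fin.tail_cons, Fin.cons_succ, Finset.mul_sum]
            refine Finset.sum_congr rfl fun c1' _ => ?_
            refine Finset.sum_congr rfl fun u _ => ?_
            by_cases hc : c1 i = c1' i
            · simp [hc]
            · simp [hc]
          rw [hκ1 l s]
          simp only [h3]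
          rw [Finset.sum_comm]
          refine Finset.sum_congr rfl fun s' _ => ?_
          simp only [Finset.mul_sum]
        rw [h2]
        have h4 : 0 ≤ ∑ c1 : Fin m → S, ∑ c1' : Fin m → S, ∑ u,
              (if c1 i = c1' i then 0 else κs s l c1 c1' u) := by
          refine Finset.sum_nonneg fun _ _ => Finset.sum_nonneg fun _ _ =>
            Finset.sum_nonneg fun _ _ => ?_
          split_ifs
          · exact le_rfl
          · exact hκs0 _ _ _ _ _
        by_cases hz : PL l s = 0
        · rw [hz, zero_mul]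
          exact mul_nonneg (hq0 0 s) h4
        · rw [← mul_assoc, mul_div_cancel₀ _ hz]
      refine (Finset.sum_le_sum fun l _ => h1 l).trans ?_
      rw [Finset.sum_comm]
      refine Finset.sum_le_sum fun s _ => ?_
      rw [← Finset.mul_sum]
      by_cases hs : q 0 s = 0
      · rw [hs, zero_mul, zero_mul]
      · exact mul_le_mul_of_nonneg_left ((hκs s hs).2.2 i) (hq0 0 s)

theorem done (hP : S_PIN) (hM : S_MAX) (hE : S_ENT) : S_COU := by
  intro m
  induction m with
  | zero =>
    intro S K _ _ _ q p hq0 hq1 hp0 hp1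
    refine ⟨fun i => i.elim0, fun i => i.elim0, ?_, ?_⟩
    · have h1 : ∑ z, (∑ c, p c z) = 1 := by
        rw [Finset.sum_comm]
        simp only [hp1]
        simp
      simpa using (hE K (fun z => ∑ c, p c z) (fun z => Finset.sum_nonneg fun c _ => hp0 c z) h1).1
    · intro L U _ _ _ h P hP0 hP1
      refine ⟨fun l c c' u => ∑ z, if h z = l then P c z u else 0, ?_, ?_, ?_, fun i => i.elim0⟩
      · intro l c c' u
        refine Finset.sum_nonneg fun z _ => ?_
        split_ifs
        · exact hP0 _ _ _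
        · exact le_rfl
      · intro l c u
        simp
      · intro l c'
        simp only [Finset.univ_eq_empty, Finset.prod_empty, mul_one]
        refine Finset.sum_congr rfl fun c _ => ?_
        rw [Finset.sum_comm]
        refine Finset.sum_congr rfl fun z _ => ?_
        by_cases hzl : h z = l
        · simp [hzl, hP1]
        · simp [hzl]
  | succ m ih =>
    intro S K _ _ _ q p hq0 hq1 hp0 hp1
    have hgs : ∀ s, ∃ g : Fin m → ℝ, (∀ i, 0 ≤ g i) ∧ (q 0 s ≠ 0 →
        ∑ i, g i ^ 2 ≤ Hent (fun z => (∑ c1 : Fin m → S,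
          p (Fin.cons s c1 : Fin (m + 1) → S) z) / q 0 s) ∧
        CouP m S K (fun i => q i.succ)
          (fun c1 z => p (Fin.cons s c1 : Fin (m + 1) → S) z / q 0 s) g) := by
      intro s
      by_cases hs : q 0 s = 0
      · exact ⟨fun _ => 0, fun _ => le_rfl, fun h => absurd hs h⟩
      · have hs0 : 0 < q 0 s := lt_of_le_of_ne (hq0 0 s) (Ne.symm hs)
        obtain ⟨g, h1, h2, h3⟩ := ih S K (fun i => q i.succ)
          (fun c1 z => p (Fin.cons s c1 : Fin (m + 1) → S) z / q 0 s)
          (fun i s => hq0 _ _) (fun i => hq1 _) (fun c z => div_nonneg (hp0 _ _) hs0.le)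
          (fun c => by
            rw [← Finset.sum_div, hp1, Fin.prod_univ_succ]
            simp only [Fin.cons_zero, Fin.cons_succ]
            rw [mul_div_cancel_left₀ _ hs])
        refine ⟨g, h1, fun _ => ⟨?_, h3⟩⟩
        have h4 : (fun z => (∑ c1 : Fin m → S,
          p (Fin.cons s c1 : Fin (m + 1) → S) z) / q 0 s) = fun z => ∑ c1 : Fin m → S,
          p (Fin.cons s c1 : Fin (m + 1) → S) z / q 0 s := by
          funext z
          rw [Finset.sum_div]
        rw [h4]
        exact h2
    choose gs hgs0 hgs using hgs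
    refine ⟨_, ?_, ?_, stepCou hM m S K q p hq0 hq1 hp0 hp1 gs hgs0 (fun s hs => (hgs s hs).2)⟩
    · intro i
      refine Fin.cases ?_ (fun i => ?_) i
      · simp only [Fin.cons_zero]
        exact mul_nonneg (by norm_num) (Finset.sum_nonneg fun _ _ => Finset.sum_nonneg fun _ _ =>
          abs_nonneg _)
      · simp only [Fin.cons_succ]
        exact Finset.sum_nonneg fun s _ => mul_nonneg (hq0 _ _) (hgs0 _ _)
    · rw [Fin.sum_univ_succ]
      simp only [Fin.cons_zero, Fin.cons_succ]
      set p0 : S → K → ℝ := fun s z => ∑ c1 : Fin m → S,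
        p (Fin.cons s c1 : Fin (m + 1) → S) z with hp0d
      have hp0q : ∀ s, ∑ z, p0 s z = q 0 s := by
        intro s
        simp only [hp0d]
        rw [Finset.sum_comm]
        have h1 : ∀ c1 : Fin m → S, ∑ z, p (Fin.cons s c1 : Fin (m + 1) → S) z =
            q 0 s * ∏ i : Fin m, q i.succ (c1 i) := by
          intro c1
          rw [hp1, Fin.prod_univ_succ]
          simp
        simp only [h1]
        rw [← Finset.mul_sum, sum_prod_one _ (fun i => hq1 _), mul_one]
      have h1 := hP S K (q 0) p0 (hq0 0) (hq1 0)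
        (fun s z => Finset.sum_nonneg fun c1 _ => hp0 _ _) hp0q
      have h2 : ∑ i : Fin m, (∑ s, q 0 s * gs s i) ^ 2 ≤
          ∑ s, q 0 s * Hent (fun z => p0 s z / q 0 s) := by
        have h3 : ∀ i : Fin m, (∑ s, q 0 s * gs s i) ^ 2 ≤ ∑ s, q 0 s * gs s i ^ 2 := by
          intro i
          have := (even_two.convexOn_pow (𝕜 := ℝ)).map_sum_le (t := (univ : Finset S))
            (w := q 0) (p := fun s => gs s i) (fun s _ => hq0 0 s) (hq1 0)
            (fun _ _ => Set.mem_univ _)
          simpa [smul_eq_mul] using this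
        calc ∑ i : Fin m, (∑ s, q 0 s * gs s i) ^ 2 ≤ ∑ i : Fin m, ∑ s, q 0 s * gs s i ^ 2 :=
              Finset.sum_le_sum fun i _ => h3 i
          _ = ∑ s, q 0 s * ∑ i : Fin m, gs s i ^ 2 := by
              rw [Finset.sum_comm]
              simp only [Finset.mul_sum]
          _ ≤ ∑ s, q 0 s * Hent (fun z => p0 s z / q 0 s) := by
              refine Finset.sum_le_sum fun s _ => ?_
              by_cases hs : q 0 s = 0
              · rw [hs, zero_mul, zero_mul]
              · exact mul_le_mul_of_nonneg_left (hgs s hs).1 (hq0 0 s)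
      have h3 : (fun z => ∑ c, p c z) = fun z => ∑ s, p0 s z := by
        funext z
        rw [sum_cons]
      rw [h3]
      linarith

end Pool.Agent.Y240.FM
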